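import Mathlib
import Pool.Agent.Work.MP_6f8877_nt.Grow4

/-!
An explicit sign choice, the same in every factor, for which the coefficients of the signed
partition product are at most `m ^ (17 + 6 log log m)`.
-/

set_option autoImplicit false

namespace Pool.Agent.Work.MP_6f8877_nt.Kept.LogLogGrowth

open Pool.Agent.Work.MP_6f8877_nt

theorem result :
    ∃ s : ℕ → ℤ, (∀ j, s j = ∏ i ∈ Finset.range j, (-1) ^ (j / 4 ^ (2 ^ i - 1))) ∧
      (∀ j, s j = 1 ∨ s j = -1) ∧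
      (∀ I m : ℕ, 1 ≤ m → m < 4 ^ (2 ^ I - 1) →
        |((∑ p : Nat.Partition m, ∏ i ∈ p.parts.toFinset, s (p.parts.count i) : ℤ) : ℝ)| ≤
          Real.exp 3 * (2 * m + 1) ^ (2 * I + 3)) ∧
      ∀ m : ℕ, 3 ≤ m →
        |((∑ p : Nat.Partition m, ∏ i ∈ p.parts.toFinset, s (p.parts.count i) : ℤ) : ℝ)| ≤
          (m : ℝ) ^ (17 + 6 * Real.log (Real.log m)) :=
  ⟨sg, fun _ => rfl, fun j => sgI_one_or j j, fun _ _ hm hI => bound_explicit hm hI,
    fun _ hm => bound_loglog hm⟩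

end Pool.Agent.Work.MP_6f8877_nt.Kept.LogLogGrowth
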